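import Pool.Agent.H592.PD.B6

/-!
# Sharp convex domination for the error terms of the Piltz divisor problems, in every window

The definitions are in `Pool.Agent.H592.PD.Defs`.
-/

open MeasureTheory Pool.Agent.H592.Piltz

namespace Pool.Agent.Results.MP_bc6037_nt.ConvexDominationAllK

/-- For every `k ≥ 2` the main term of the Piltz divisor problem is determined by a power saving.  For finitely many
`k i ≥ 2`, `α i > 0` and real `t i` the Voronoi series of the normalised error terms at the points `α i * r + t i` have a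
joint limit law `μ` with centred coordinates and explicit variances, and every convex function which is bounded below has,
along the true error terms and in all windows `[Y, Y+H]` with `Y`, `H` large, mean value at least `A`, where `A` is any
number below its `μ`-integral (any number at all if it is not `μ`-integrable). -/
theorem result :
    (∀ k : ℕ, 2 ≤ k → ∃! P : Polynomial ℝ, IsMain k P) ∧
    ∀ (d : ℕ) (k : Fin d → ℕ) (P : Fin d → Polynomial ℝ) (α t : Fin d → ℝ),
      (∀ i, 2 ≤ k i ∧ IsMain (k i) (P i) ∧ 0 < α i) →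
      ∃ μ : ProbabilityMeasure (Fin d → ℝ), IsLaw k α t μ ∧
        (∀ i, ∫ x, x i ∂(μ : Measure (Fin d → ℝ)) = 0 ∧
          ∫ x, x i ^ 2 ∂(μ : Measure (Fin d → ℝ)) =
            (∑' m : ℕ, (dv (k i) m : ℝ) ^ 2 * (m:ℝ) ^ (-(1 + 1 / (k i : ℝ)))) / (2 * Real.pi ^ 2 * k i)) ∧
        ∀ Φ : (Fin d → ℝ) → ℝ, ConvexOn ℝ Set.univ Φ → (∃ b : ℝ, ∀ x, b ≤ Φ x) →
          ∀ A : ℝ, (Integrable Φ (μ : Measure (Fin d → ℝ)) → A < ∫ x, Φ x ∂(μ : Measure (Fin d → ℝ))) →
            ∃ Y₀ H₀ : ℝ, 0 < H₀ ∧ ∀ Y H : ℝ, Y₀ ≤ Y → H₀ ≤ H →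
              IntervalIntegrable (fun r => Φ (Evec k P α t r)) volume Y (Y+H) ∧
              A * H ≤ ∫ r in Y..(Y+H), Φ (Evec k P α t r) := by
  refine ⟨fun k hk => Pool.Agent.H592.PD.main_eu hk, fun d k P α t h => ?_⟩
  have hk : ∀ i, 2 ≤ k i := fun i => (h i).1
  have hP : ∀ i, IsMain (k i) (P i) := fun i => (h i).2.1
  have hα : ∀ i, 0 < α i := fun i => (h i).2.2
  obtain ⟨μ, hμ⟩ := Pool.Agent.H592.PD.law_exists (t := t) hk hα
  refine ⟨μ, hμ, fun i => Pool.Agent.H592.PD.law_moments hk hα hμ i, fun Φ hΦ ⟨b, hb⟩ A hA => ?_⟩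
  exact Pool.Agent.H592.PD.dom hk hP hα hμ hΦ hb hA

end Pool.Agent.Results.MP_bc6037_nt.ConvexDominationAllK
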