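import Pool.Agent.H592.PD.C8

/-!
# Extreme values of both signs of the Piltz error terms, in every window

The definitions are in `Pool.Agent.H592.PD.Defs`.
-/

open MeasureTheory Pool.Agent.H592.Piltz

namespace Pool.Agent.Results.MP_bc6037_nt.ExtremesInEveryWindow

/-- For every `k ≥ 2` (the main term being unique) there are `c, H₀ > 0` such that every window `[R, R+H]`, `R ≥ 0`, `H ≥ H₀`,
contains a point at which the normalised error term `E_k(r) = Δ_k(r^k) / r^((k-1)/2)` is at least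
`exp (c (log log H)^((k-1)/(2k)) / (log log log H)^((k+1)/(2k)))`, and a point at which it is at most the negative of this. -/
theorem result : ∀ k : ℕ, 2 ≤ k → (∃! P : Polynomial ℝ, IsMain k P) ∧ ∀ P : Polynomial ℝ, IsMain k P →
    ∃ c H₀ : ℝ, 0 < c ∧ 0 < H₀ ∧ ∀ R H : ℝ, 0 ≤ R → H₀ ≤ H →
      (∃ r ∈ Set.Icc R (R + H),
        Real.exp (c * (Real.log (Real.log H)) ^ (((k:ℝ) - 1) / (2 * k)) / (Real.log (Real.log (Real.log H))) ^ (((k:ℝ) + 1) / (2 * k)))
          ≤ E k P r) ∧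
      (∃ r ∈ Set.Icc R (R + H), E k P r ≤
        -Real.exp (c * (Real.log (Real.log H)) ^ (((k:ℝ) - 1) / (2 * k)) / (Real.log (Real.log (Real.log H))) ^ (((k:ℝ) + 1) / (2 * k)))) := by
  intro k hk
  refine ⟨Pool.Agent.H592.PD.main_eu hk, fun P hP => ?_⟩
  obtain ⟨c, H₀, hc, hH₀, h⟩ := Pool.Agent.H592.PD.extremes_all hk hP
  refine ⟨c, H₀, hc, hH₀, fun R H hR hH => ⟨?_, ?_⟩⟩
  · obtain ⟨r, hr, h1⟩ := h R H hR hH 1 (by norm_num)
    exact ⟨r, hr, by rwa [one_mul] at h1⟩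
  · obtain ⟨r, hr, h1⟩ := h R H hR hH (-1) (by norm_num)
    exact ⟨r, hr, by linarith⟩

end Pool.Agent.Results.MP_bc6037_nt.ExtremesInEveryWindow
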