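import Pool.Agent.H592.PD.B6

/-!
# One strictly convex moment forces the limit law of the error terms of the Piltz divisor problems

The definitions are in `Pool.Agent.H592.PD.Defs`.
-/

open MeasureTheory Pool.Agent.H592.Piltz

namespace Pool.Agent.Results.MP_bc6037_nt.LawFromOneMoment

/-- Stability.  For finitely many `k i ≥ 2`, `α i > 0` and real `t i` let `μ` be the joint limit law of the Voronoi series of
the normalised error terms at the points `α i * r + t i`.  If `Φ` is strictly convex, bounded below and `μ`-integrable, then in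
every window `[Y, Y+H]` with `Y`, `H` large in which the mean value of `Φ` along the true error terms does not exceed its
`μ`-integral by more than `η`, the law of the true error terms is close to `μ`, tested by any bounded continuous function. -/
theorem result :
    (∀ k : ℕ, 2 ≤ k → ∃! P : Polynomial ℝ, IsMain k P) ∧
    ∀ (d : ℕ) (k : Fin d → ℕ) (P : Fin d → Polynomial ℝ) (α t : Fin d → ℝ),
      (∀ i, 2 ≤ k i ∧ IsMain (k i) (P i) ∧ 0 < α i) →
      ∃ μ : ProbabilityMeasure (Fin d → ℝ), IsLaw k α t μ ∧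
        ∀ Φ : (Fin d → ℝ) → ℝ, StrictConvexOn ℝ Set.univ Φ → (∃ b : ℝ, ∀ x, b ≤ Φ x) → Integrable Φ (μ : Measure (Fin d → ℝ)) →
          ∀ f : (Fin d → ℝ) → ℝ, Continuous f → (∃ C : ℝ, ∀ x, |f x| ≤ C) →
            ∀ ε : ℝ, 0 < ε → ∃ η Y₀ H₀ : ℝ, 0 < η ∧ 0 < H₀ ∧ ∀ Y H : ℝ, Y₀ ≤ Y → H₀ ≤ H →
              ∫ r in Y..(Y+H), Φ (Evec k P α t r) ≤ ((∫ x, Φ x ∂(μ : Measure (Fin d → ℝ))) + η) * H →
              |(∫ r in Y..(Y+H), f (Evec k P α t r)) - (∫ x, f x ∂(μ : Measure (Fin d → ℝ))) * H| ≤ ε * H := by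
  refine ⟨fun k hk => Pool.Agent.H592.PD.main_eu hk, fun d k P α t h => ?_⟩
  have hk : ∀ i, 2 ≤ k i := fun i => (h i).1
  have hP : ∀ i, IsMain (k i) (P i) := fun i => (h i).2.1
  have hα : ∀ i, 0 < α i := fun i => (h i).2.2
  obtain ⟨μ, hμ⟩ := Pool.Agent.H592.PD.law_exists (t := t) hk hα
  refine ⟨μ, hμ, fun Φ hΦ ⟨b, hb⟩ hi f hf ⟨C, hC⟩ ε hε => ?_⟩
  exact Pool.Agent.H592.PD.rigid hk hP hα hμ hΦ hb hi hf hC hε

end Pool.Agent.Results.MP_bc6037_nt.LawFromOneMoment
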