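import Pool.Agent.H592.PD.E11

/-!
# Superlinearly many crossings of every level by the Piltz error terms, in every window

The definitions are in `Pool.Agent.H592.PD.Defs`.
-/

open MeasureTheory Pool.Agent.H592.Piltz

namespace Pool.Agent.Results.MP_bc6037_nt.SuperlinearCrossings

/-- For every `k ≥ 2` (the main term being unique) and all `A, K` there are `η, H₀ > 0` such that for every level `c ∈ [-A, A]`,
every `Y ≥ 0` and every `H ≥ H₀` the window `[Y, Y+H]` contains at least `K H` successive disjoint intervals `[s_i, t_i]` on which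
the normalised error term `E_k(r) = Δ_k(r^k) / r^((k-1)/2)` goes from a value `≥ c + η` through a zero `z_i` of `E_k - c` to a value
`≤ c - η`. -/
theorem result : ∀ k : ℕ, 2 ≤ k → (∃! P : Polynomial ℝ, IsMain k P) ∧ ∀ P : Polynomial ℝ, IsMain k P →
    ∀ A K : ℝ, ∃ η H₀ : ℝ, 0 < η ∧ 0 < H₀ ∧ ∀ c Y H : ℝ, |c| ≤ A → 0 ≤ Y → H₀ ≤ H →
      ∃ N : ℕ, K * H ≤ N ∧ ∃ s z t : ℕ → ℝ, ∀ i < N,
        Y ≤ s i ∧ s i < z i ∧ z i < t i ∧ t i ≤ Y + H ∧ (i + 1 < N → t i < s (i + 1)) ∧
        c + η ≤ E k P (s i) ∧ E k P (z i) = c ∧ E k P (t i) ≤ c - η := by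
  intro k hk
  exact ⟨Pool.Agent.H592.PD.main_eu hk, fun P hP A K => Pool.Agent.H592.PD.crossings hk hP A K⟩

end Pool.Agent.Results.MP_bc6037_nt.SuperlinearCrossings
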